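import Pool.Agent.Helper44.BI.Nec3

/-!
# Characterisation of the continuity moduli with property (P)

A continuity modulus `ω` has property (P) if and only if either `ω` is bounded below by a positive
constant, or `ω(t)/t` is almost decreasing and, for some `α > 0`, `ω(t)/t^α` is almost increasing
on `(0, 1/2]`.
-/

namespace Pool.Agent.Results.MP_3bea3b_an.Characterization

open Set Pool.Agent.Helper44.BI

theorem result (ω : ℝ → ℝ) (hω : IsContinuityModulus ω) :
    PropertyP ω ↔
      ((∃ c : ℝ, 0 < c ∧ ∀ t ∈ Ioo (0 : ℝ) 1, c ≤ ω t) ∨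
        ∃ α : ℝ, 0 < α ∧ ∃ C : ℝ, 0 < C ∧ ∀ s t : ℝ, 0 < s → s ≤ t → t ≤ 1 / 2 →
          (s / t) * ω t ≤ C * ω s ∧ ω s ≤ C * (s / t) ^ α * ω t) := by
  constructor
  · intro hP
    by_cases hinf : ∃ c > 0, ∀ t ∈ Ioo (0 : ℝ) 1, c ≤ ω t
    · exact Or.inl hinf
    · right
      obtain ⟨K, hK, hlow⟩ := nec_lower hω hP
      obtain ⟨α, hα, C, hC, hup⟩ := nec_power hω hP hinf
      refine ⟨α, hα, max K C, lt_max_of_lt_left hK, ?_⟩
      intro s t hs hst ht
      have ht0 : 0 < t := by linarith
      have hωs : 0 < ω s := hω.pos s ⟨hs, by linarith⟩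
      have hωt : 0 < ω t := hω.pos t ⟨ht0, by linarith⟩
      constructor
      · have h1 := hlow s t hs hst ht
        have h2 : (s / t) * ω t ≤ K * ω s := by
          rw [div_mul_eq_mul_div, div_le_iff₀ ht0]
          linarith
        exact h2.trans (mul_le_mul_of_nonneg_right (le_max_left _ _) hωs.le)
      · have h1 := hup s t hs hst ht
        refine h1.trans ?_
        apply mul_le_mul_of_nonneg_right _ hωt.le
        apply mul_le_mul_of_nonneg_right (le_max_right _ _)
        exact Real.rpow_nonneg (by positivity) _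
  · rintro (⟨c, hc, h⟩ | ⟨α, hα, C, hC, h⟩)
    · exact suff_inf hc h
    · exact suff_growth hω hα hC h

end Pool.Agent.Results.MP_3bea3b_an.Characterization
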